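import Pool.Agent.W2helper4.TS.Main4
import Pool.Agent.W2helper4.CY.Hyp

/-!
# Independent periods of the fibres of Calabi–Yau families near a point of maximally unipotent monodromy

Let `V` be a family of motives of rank `n = 2m` over a nonempty Zariski open subset of the projective line over `ℚ`, with
parameter `x`, with a polarisation, of Calabi–Yau type (all Hodge numbers are `1`), with maximally unipotent monodromy at
the rational point `x = 0`; for example the middle cohomology of a family of Calabi–Yau varieties with `h^{n-1} = n`, such as the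
mirror quintic family (`n = 4`), or of a family of elliptic curves (`n = 2`). In a symplectic
frame of the canonical extension of the de Rham cohomology over `ℚ` and a symplectic Frobenius basis of multivalued flat
sections the period matrix of `V` is `P(x) x^N`, where `N` is the nilpotent Jordan block and `P` is a matrix of power series over
`ℚ`. It satisfies the conditions in `IsVariation`: `P` is symplectic, `P(x) x^N` is a solution of a linear differential equation
over `ℚ(x)`, and the entries of `P` are G-functions, by the theorem of André. The fibre `Y` of `V` at an algebraic point `z` has the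
period matrix `P(z) z^N C` in suitable bases (rows: de Rham, over `ℚ(z)`, columns: Betti, over `ℚ`), where `C` is a rational structure: the
logarithm `2πi C⁻¹ N C` of the local monodromy is
rational, and the polarisation `A` satisfies `C A Cᵀ = (2πi)^w S`, where `w` is the weight. (If the logarithm of the
monodromy is `2πi e N` then one multiplies the bases by powers of `e`.) The matrix `C` depends on the family, it is known in
few cases (for the quintic it contains `ζ(3)`). The theorem is uniform in all rational structures.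

Let `V_1, …, V_r` be such families, of ranks `2 m_i`, such that the algebraic monodromy group of `V_1 ⊕ ⋯ ⊕ V_r` is the product of
the symplectic groups (`MaximalMonodromy`). The theorem
`hypergeometric` shows that the hypergeometric families are examples. The mirror quintic family is given by `m = 2` and
`β = (1/5, 2/5)`, with the conifold point `x = 1`.

Grothendieck's period conjecture predicts for the fibre `Y` of `V` at a Hodge generic point that `dim MT = dim GSp = 2m² + m + 1` of the
`4m²` periods are algebraically independent. We prove: let `D`, `g`, `A₀` and `δ` be given. For all but finitely many algebraic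
numbers `ξ` of degree `≤ g` and of height `≤ |ξ|^A₀` with `|ξ| > R` **there are at least `2m² - 1` periods of the fibre at `x = 1 / ξ` which
satisfy no nonzero polynomial relation of degree `≤ δ` over any number field of degree `≤ D`** (the periods may depend on the field), and for sums
of fibres of different families `V_i` at this point, or more generally at the points `1 / (ξ - G u)`, `0 ≤ u ≤ B`, with different pairs of the
family and the point, there are at least `2 ∑ m_a² - 1` such periods, while `∑ (2 m_a² + m_a) + 1` are expected. So for the relations of degree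
`≤ δ` all but `∑ m_a + 2` of the expected independent periods are independent; for the mirror quintic family `7` of `11`. There is no
condition on the size of the coefficients of the relations.

Known results (see the problem file and the starting files) are about almost all parameters (a dense set, density one). They give all
relations of degree `≤ δ` at these parameters, but they allow infinitely many exceptions, because the constants in `C` may satisfy
relations with the values of `P`. Here there are no exceptions, but the constants have to be paid for.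

Proof (`Pool/Agent/W2helper4/TS`). By the theory of G-functions (helper916, W2helper4/CY) all polynomial relations of bounded degree over `ℚ`
between the entries of the matrices `p_a = P_a(z_a)` come from relations between functions, so that they hold on the product of the
symplectic groups. Let `c_a = p_a C_a` be the period matrices, and `Tan` the space of all matrices `V` such that `V c` is tangent at `c` to
all relations of degree `≤ δ` over `K` between the periods. In an ultraproduct of the complex numbers there are derivations which kill all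
numbers of bounded degree, map `p_a` to `X p_a` for a given element `X` of rank one of `𝔰𝔭` and kill the other `p_b`. The logarithmic
derivatives of the `C_b` are in the normaliser of the line of `N` in the similitudes, since the monodromy and the form
are rational, and they have the eigenvalue `D(2πi) / 2πi` on `N`. So `Tan` contains elements with the components
`X + p_a Y_a p_a⁻¹` and `p_b Y_b p_b⁻¹`, where the `Y_b` are in a space of dimension `∑ (m_b + 1) + 1` (`TS/Ult2`). Hence `Tan` has dimension at least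
`∑ (2 m_a² + m_a + 1) - ∑ (m_a + 1) - 1` (`TS/Cnt`, `finrank_Tan`). There are as many entries of `c` such that every relation of degree `≤ δ` between
them can be differentiated with respect to each of them; by induction on the degree there are no relations (`indep_of`).
-/

set_option autoImplicit false

open PowerSeries

namespace Pool.Agent.Results.MP_cbf1af_ag.CalabiYauPeriods

/-- the nilpotent Jordan block -/
def N (n : ℕ) : Matrix (Fin n) (Fin n) ℚ := Matrix.of fun i j => if (j : ℕ) = i + 1 then 1 else 0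

/-- the matrix of the standard alternating form, for even `n` -/
def S (n : ℕ) : Matrix (Fin n) (Fin n) ℚ := Matrix.of fun i j => if (i : ℕ) + j + 1 = n then (-1) ^ (i : ℕ) else 0

/-- a rational matrix as a complex matrix -/
def toC {n : ℕ} (M : Matrix (Fin n) (Fin n) ℚ) : Matrix (Fin n) (Fin n) ℂ := M.map fun x : ℚ => (x : ℂ)

/-- a rational matrix as a matrix of constant power series -/
noncomputable def toPS {n : ℕ} (M : Matrix (Fin n) (Fin n) ℚ) : Matrix (Fin n) (Fin n) (PowerSeries ℚ) :=
  M.map fun x : ℚ => (C x : PowerSeries ℚ)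

/-- the coefficients of index at most `k` and their common denominator are at most `K^(k+1)` -/
def IsGFunction (f : PowerSeries ℚ) : Prop :=
  ∃ K : ℕ, ∀ k : ℕ, |((coeff k f : ℚ) : ℝ)| ≤ (K : ℝ) ^ (k + 1) ∧
    ∃ d : ℕ, 0 < d ∧ (d : ℝ) ≤ (K : ℝ) ^ (k + 1) ∧ ∀ j ≤ k, ∃ a : ℤ, (d : ℚ) * coeff j f = a

/-- The matrix `P(x) x^N` is the period matrix of a variation of Calabi–Yau type near `x = 0`, in symplectic bases: `P` is
symplectic, its entries are G-functions, and `x d/dx (P x^N) = (A / T) P x^N`, i.e. `T (x P' + P N) = A P`, for a matrix `A` of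
polynomials and a polynomial `T ≠ 0`. -/
structure IsVariation {m : ℕ} (P : Matrix (Fin (2 * m)) (Fin (2 * m)) (PowerSeries ℚ)) : Prop where
  form : P * toPS (S (2 * m)) * P.transpose = toPS (S (2 * m))
  gfun : ∀ i j, IsGFunction (P i j)
  ode : ∃ (T : Polynomial ℚ) (A : Matrix (Fin (2 * m)) (Fin (2 * m)) (Polynomial ℚ)), T ≠ 0 ∧ ∀ i j,
    (T : PowerSeries ℚ) * (X * d⁄dX ℚ (P i j) + (P * toPS (N (2 * m))) i j) = ∑ k, (A i k : PowerSeries ℚ) * P k j

/-- The algebraic monodromy group of the sum of the variations is the product of the symplectic groups: all polynomial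
relations between the entries of the matrices `P_i`, with coefficients which are polynomials in `x`, hold for all `x` and for
all symplectic matrices. -/
def MaximalMonodromy {r : ℕ} {m : Fin r → ℕ} (P : ∀ i, Matrix (Fin (2 * m i)) (Fin (2 * m i)) (PowerSeries ℚ)) : Prop :=
  ∀ F : MvPolynomial (Σ i, Fin (2 * m i) × Fin (2 * m i)) (Polynomial ℚ),
    MvPolynomial.aeval (fun v : Σ i, Fin (2 * m i) × Fin (2 * m i) => P v.1 v.2.1 v.2.2) F = 0 →
    ∀ (x : ℂ) (Z : ∀ i, Matrix (Fin (2 * m i)) (Fin (2 * m i)) ℂ),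
      (∀ i, Z i * toC (S (2 * m i)) * (Z i).transpose = toC (S (2 * m i))) →
      MvPolynomial.eval₂ (Polynomial.aeval x : Polynomial ℚ →ₐ[ℚ] ℂ).toRingHom (fun v => Z v.1 v.2.1 v.2.2) F = 0

/-- the value of a matrix of power series at `z` -/
noncomputable def val {n : ℕ} (P : Matrix (Fin n) (Fin n) (PowerSeries ℚ)) (z : ℂ) : Matrix (Fin n) (Fin n) ℂ :=
  Matrix.of fun i j => ∑' k : ℕ, ((coeff k (P i j) : ℚ) : ℂ) * z ^ k

/-- the matrix `exp (l N)`, that is `z^N` for `l = log z` -/
noncomputable def expN (n : ℕ) (l : ℂ) : Matrix (Fin n) (Fin n) ℂ :=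
  ∑ a ∈ Finset.range n, (l ^ a / (a.factorial : ℂ)) • toC (N n) ^ a

/-- The base change `C` from the Frobenius basis to rational coordinates and the rational form `(v, w) ↦ v A wᵀ` on
`ℚ^n` (row vectors) are a rational structure with a form: the logarithm `2 π i C⁻¹ N C` of the local monodromy is rational
and the form is proportional to the flat form `S`. -/
structure RationalStructure {n : ℕ} (C : Matrix (Fin n) (Fin n) ℂ) (A : Matrix (Fin n) (Fin n) ℚ) : Prop where
  det : C.det ≠ 0
  log : ∃ M : Matrix (Fin n) (Fin n) ℚ, C * toC M = (2 * (Real.pi : ℂ) * Complex.I) • (toC (N n) * C)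
  form : ∃ κ : ℂ, κ ≠ 0 ∧ C * toC A * C.transpose = κ • toC (S n)

/-- the period matrix `P(z) z^N C` of the fibre at `z`, with a value `l` of `log z` and the rational structure `C` -/
noncomputable def fibre {n : ℕ} (P : Matrix (Fin n) (Fin n) (PowerSeries ℚ)) (z l : ℂ) (C : Matrix (Fin n) (Fin n) ℂ) :
    Matrix (Fin n) (Fin n) ℂ := val P z * expN n l * C

/-- Let `Y` be the sum of the fibres of the families with the numbers `c 1, …, c s` at the points `z 1, …, z s`, with
the values `l_a` of `log z_a` and the rational structures `C_a`. For all rational structures and all number fields `K` of degree at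
most `D` there are `k ≥ 2 ∑ m_a² - 1` periods `e_1, …, e_k` of `Y` (different entries of the matrices `P_(c a)(z_a) z_a^N C_a`) such that no
nonzero polynomial of degree at most `δ` over `K` vanishes at `(e_1, …, e_k)`. -/
def ManyIndependent (D δ : ℕ) {r : ℕ} {m : Fin r → ℕ} (P : ∀ i, Matrix (Fin (2 * m i)) (Fin (2 * m i)) (PowerSeries ℚ))
    {s : ℕ} (c : Fin s → Fin r) (z : Fin s → ℂ) : Prop :=
  ∀ (l : Fin s → ℂ) (C : ∀ a, Matrix (Fin (2 * m (c a))) (Fin (2 * m (c a))) ℂ)
    (A : ∀ a, Matrix (Fin (2 * m (c a))) (Fin (2 * m (c a))) ℚ) (K : Subfield ℂ),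
    (∀ a, Complex.exp (l a) = z a) → (∀ a, RationalStructure (C a) (A a)) →
    FiniteDimensional ℚ K → Module.finrank ℚ K ≤ D →
    ∃ (k : ℕ) (e : Fin k → Σ a, Fin (2 * m (c a)) × Fin (2 * m (c a))), Function.Injective e ∧
      2 * ∑ a, m (c a) ^ 2 ≤ k + 1 ∧ ∀ Q : MvPolynomial (Fin k) K, Q.totalDegree ≤ δ →
        MvPolynomial.aeval (fun j => fibre (P (c (e j).1)) (z (e j).1) (l (e j).1) (C (e j).1) (e j).2.1 (e j).2.2) Q = 0 →
        Q = 0

/-- `ξ` is a root of a nonzero integral polynomial of degree at most `g` with coefficients of size at most `|ξ|^A` -/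
def Height (g A : ℕ) (ξ : ℂ) : Prop :=
  ∃ p : Polynomial ℤ, p ≠ 0 ∧ p.natDegree ≤ g ∧ (∀ j, |(p.coeff j : ℝ)| ≤ ‖ξ‖ ^ A) ∧ Polynomial.aeval ξ p = 0

theorem toC_eq {n : ℕ} (M : Matrix (Fin n) (Fin n) ℚ) : toC M = Pool.Agent.Y113.MT.cq M := rfl

theorem toC_N (n : ℕ) : toC (N n) = Pool.Agent.Y113.MT.NN ℂ n := by
  ext i j
  unfold toC N Pool.Agent.Y113.MT.NN
  rw [Matrix.map_apply, Matrix.of_apply, Matrix.of_apply]
  split_ifs <;> simp

theorem toC_S (n : ℕ) : toC (S n) = Pool.Agent.Y113.MT.SS ℂ n := W2helper4.CY.cq_SS n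

theorem expN_eq (n : ℕ) (l : ℂ) : expN n l = Pool.Agent.Y119.HY.E (Pool.Agent.Y113.MT.NN ℂ n) l := by
  unfold expN Pool.Agent.Y119.HY.E
  rw [toC_N]

theorem val_eq {n : ℕ} (P : Matrix (Fin n) (Fin n) (PowerSeries ℚ)) (z : ℂ) : val P z = W2helper4.CY.Mv P z := rfl

/-- the conditions in the form used in the library -/
theorem fv {m : ℕ} {P : Matrix (Fin (2 * m)) (Fin (2 * m)) (PowerSeries ℚ)} (h : IsVariation P) :
    W2helper4.CY.FV 1 P := by
  obtain ⟨T, A, hT, hode⟩ := h.ode
  refine ⟨W2helper4.CY.form_flip (W2helper4.CY.cM_SS_sq m) h.form, fun i j => ?_, ?_⟩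
  · obtain ⟨K, hK⟩ := h.gfun i j
    exact W2helper4.CY.sdc_of_bound hK
  · obtain ⟨D, q, hD, hq⟩ := W2helper4.CY.clear_fin (fun x : Option (Fin (2 * m) × Fin (2 * m)) =>
      x.elim T fun y => A y.1 y.2)
    have h1 : Y113.ps (q none) = C (D : ℚ) * (T : PowerSeries ℚ) := by
      unfold Y113.ps
      rw [hq, Polynomial.coe_mul, Polynomial.coe_C]
      rfl
    have h2 : ∀ i k, Y113.ps (q (some (i, k))) = C (D : ℚ) * (A i k : PowerSeries ℚ) := by
      intro i k
      unfold Y113.ps
      rw [hq, Polynomial.coe_mul, Polynomial.coe_C]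
      rfl
    refine ⟨q none, fun i k => q (some (i, k)), ?_, fun i j => ?_⟩
    · intro h0
      have h3 := hq none
      rw [h0, Polynomial.map_zero] at h3
      rcases mul_eq_zero.1 h3.symm with h4 | h4
      · rw [Polynomial.C_eq_zero] at h4
        exact hD (by exact_mod_cast h4)
      · exact hT h4
    · have h3 := hode i j
      rw [Matrix.mul_apply] at h3
      have h4 : ∀ k : Fin (2 * m), ((1 : ℕ) : ℚ) * Pool.Agent.Y113.MT.NN ℚ (2 * m) k j = N (2 * m) k j := by
        intro k
        rw [Nat.cast_one, one_mul]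
        rfl
      simp only [h4, h1, h2]
      have h5 : ∑ k, P i k * C (N (2 * m) k j) = ∑ k, P i k * toPS (N (2 * m)) k j := rfl
      rw [h5, mul_assoc, h3, Finset.mul_sum]
      exact Finset.sum_congr rfl fun k _ => by rw [mul_assoc]

theorem max_eq {r : ℕ} {m : Fin r → ℕ} {P : ∀ i, Matrix (Fin (2 * m i)) (Fin (2 * m i)) (PowerSeries ℚ)}
    (h : MaximalMonodromy P) : W2helper4.CY.Max P := by
  intro F hF x Z hZ
  refine h F hF x Z fun i => ?_
  rw [toC_S]
  exact W2helper4.CY.form_flip' (Pool.Agent.Y113.MT.SS_sq (m i)) (hZ i)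

/-! ### the hypergeometric families -/

/-- the power series `x + ε` in the variable `ε` -/
noncomputable def shift (x : ℚ) : PowerSeries ℚ := C x + X

/-- `a_k(ε) = ∏_{l < k} ∏_j (l + ε + β_j) (l + ε + 1 - β_j) / (l + 1 + ε)^2`. The series `∑_k a_k(ε) z^(k + ε)` satisfies
`(θ^n - z ∏_j (θ + β_j) (θ + 1 - β_j)) f = ε^n z^ε`, `θ = z d/dz`, `n = 2m`, hence its coefficients `f_j` at `ε^j` with
`j < n` are solutions of the homogeneous equation. -/
noncomputable def frob {m : ℕ} (β : Fin m → ℚ) (k : ℕ) : PowerSeries ℚ :=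
  ∏ l ∈ Finset.range k, ∏ j, (shift (l + β j) * shift (l + 1 - β j) * ((shift (l + 1))⁻¹) ^ 2)

/-- `β` and `β'` agree up to a permutation and replacing some of the numbers `β` by `1 - β` (then the operators and the
variations of Hodge structure agree) -/
def Equivalent {m m' : ℕ} (β : Fin m → ℚ) (β' : Fin m' → ℚ) : Prop :=
  ∃ e : Fin m ≃ Fin m', ∀ j, β j = β' (e j) ∨ β j = 1 - β' (e j)

theorem hyp_variation {m : ℕ} (hm : 1 ≤ m) {β : Fin m → ℚ} (hβ : ∀ j, ∀ a : ℤ, β j ≠ a) :
    IsVariation (W2helper4.CY.PH β) := by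
  have hQ := Pool.Agent.Y119.HZ.QD_QB hm (W2helper4.HJ.not_int hβ)
  refine ⟨W2helper4.CY.form_flip' (W2helper4.CY.cM_SS_sq m) (W2helper4.CY.form_PH hQ), fun i j => ?_, ?_⟩
  · obtain ⟨n, h1, h2⟩ := W2helper4.CY.sdc_PH hm hβ i j
    refine ⟨2 ^ n, fun k => ⟨?_, ?_⟩⟩
    · push_cast
      exact h1 k
    · push_cast
      exact h2 k
  · set B := Y118.CM.DN β * Pool.Agent.Y119.HY.Bm (2 * m) (Pool.Agent.Y119.HY.QB β) * (Y118.CM.DN β)⁻¹ with hB
    refine ⟨1 - Polynomial.X, Matrix.of fun i k => (1 - Polynomial.X) * Polynomial.C (N (2 * m) i k) +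
      Polynomial.X * Polynomial.C (B i k), ?_, fun i j => ?_⟩
    · intro h0
      have := congrArg (Polynomial.eval 0) h0
      simp at this
    · have h1 := congrFun (congrFun (W2helper4.CY.ode_PH hQ) i) j
      rw [Matrix.smul_apply, Matrix.add_apply, smul_eq_mul] at h1
      have h2 : ((1 - Polynomial.X : Polynomial ℚ) : PowerSeries ℚ) = 1 - X := by
        rw [Polynomial.coe_sub, Polynomial.coe_one, Polynomial.coe_X]
      rw [h2]
      refine h1.trans ?_
      rw [Matrix.mul_apply]
      refine Finset.sum_congr rfl fun k _ => ?_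
      rw [Matrix.of_apply, Polynomial.coe_add, Polynomial.coe_mul, Polynomial.coe_mul, h2, Polynomial.coe_X,
        Polynomial.coe_C, Polynomial.coe_C]
      rfl

theorem hyp_max {r : ℕ} {m : Fin r → ℕ} (hm : ∀ i, 1 ≤ m i) (β : ∀ i, Fin (m i) → ℚ)
    (hβ : ∀ i j, 0 < β i j ∧ β i j < 1) (hne : ∀ i k, i ≠ k → ¬ Equivalent (β i) (β k)) :
    MaximalMonodromy fun i => W2helper4.CY.PH (β i) := by
  have hβ' : ∀ i j, ∀ a : ℤ, β i j ≠ a := by
    intro i j a h
    have h1 := hβ i j
    rw [h] at h1
    have h2 : (0 : ℤ) < a := by exact_mod_cast h1.1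
    have h3 : a < (1 : ℤ) := by exact_mod_cast h1.2
    omega
  have hne' : ∀ i k, i ≠ k → ¬ W2helper4.HJ.Eqv (β i) (β k) := by
    rintro i k hik ⟨e, he⟩
    refine hne i k hik ⟨e, fun j => ?_⟩
    obtain ⟨a, ha⟩ := he j
    have h1 := hβ i j
    have h2 := hβ k (e j)
    rcases ha with ha | ha
    · left
      have h3 : (-1 : ℚ) < a := by linarith
      have h4 : (a : ℚ) < 1 := by linarith
      have h5 : -1 < a := by exact_mod_cast h3
      have h6 : a < 1 := by exact_mod_cast h4
      have h7 : a = 0 := by omega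
      rw [ha, h7]
      simp
    · right
      have h3 : (0 : ℚ) < a := by linarith
      have h4 : (a : ℚ) < 2 := by linarith
      have h5 : 0 < a := by exact_mod_cast h3
      have h6 : a < 2 := by exact_mod_cast h4
      have h7 : a = 1 := by omega
      rw [ha, h7]
      simp
  intro F hF x Z hZ
  refine W2helper4.CY.max_PH hm β hβ' hne' F hF x Z fun i => W2helper4.CY.form_flip (Pool.Agent.Y113.MT.SS_sq (m i)) ?_
  rw [← toC_S]
  exact hZ i

/-- **The hypergeometric families are examples.** Let `β_1, …, β_r` be pairwise inequivalent tuples of rational numbers in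
`(0, 1)`. There are matrices `P_i` which satisfy all conditions, such that the first `m_i` rows of `P_i(x) x^N` (they determine
the Hodge filtration) are the derivatives `θ^a (f_0, …, f_(2 m_i - 1))`, `a < m_i`, of the Frobenius basis of the equation
`θ^(2 m_i) - x ∏_j (θ + β_ij) (θ + 1 - β_ij)`. -/
theorem hypergeometric {r : ℕ} (m : Fin r → ℕ) (β : ∀ i, Fin (m i) → ℚ) (hm : ∀ i, 1 ≤ m i)
    (hβ : ∀ i j, 0 < β i j ∧ β i j < 1) (hne : ∀ i k, i ≠ k → ¬ Equivalent (β i) (β k)) :
    ∃ P : ∀ i, Matrix (Fin (2 * m i)) (Fin (2 * m i)) (PowerSeries ℚ), (∀ i, IsVariation (P i)) ∧ MaximalMonodromy P ∧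
      ∀ i (a b : Fin (2 * m i)), (a : ℕ) < m i → ∀ k : ℕ,
        coeff k (P i a b) = coeff (b : ℕ) (shift (k : ℚ) ^ (a : ℕ) * frob (β i) k) := by
  have hβ' : ∀ i j, ∀ a : ℤ, β i j ≠ a := by
    intro i j a h
    have h1 := hβ i j
    rw [h] at h1
    have h2 : (0 : ℤ) < a := by exact_mod_cast h1.1
    have h3 : a < (1 : ℤ) := by exact_mod_cast h1.2
    omega
  refine ⟨fun i => W2helper4.CY.PH (β i), fun i => hyp_variation (hm i) (hβ' i), hyp_max hm β hβ hne,
    fun i a b ha k => ?_⟩
  exact W2helper4.CY.row_PH (Pool.Agent.Y119.HZ.QD_QB (hm i) (W2helper4.HJ.not_int (hβ' i))) ha b k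

/-- independent periods, in terms of the library -/
theorem many_of {r : ℕ} {m : Fin r → ℕ} {P : ∀ i, Matrix (Fin (2 * m i)) (Fin (2 * m i)) (PowerSeries ℚ)}
    {D δ s : ℕ} {c : Fin s → Fin r} {z : Fin s → ℂ}
    (h : ∀ (C : ∀ a, Matrix (Fin (2 * m (c a))) (Fin (2 * m (c a))) ℂ)
      (M A : ∀ a, Matrix (Fin (2 * m (c a))) (Fin (2 * m (c a))) ℚ) (q : ℂ) (κ : Fin s → ℂ), (∀ a, (C a).det ≠ 0) →
      q ≠ 0 → (∀ a, C a * Pool.Agent.Y113.MT.cq (M a) = q • (Pool.Agent.Y113.MT.NN ℂ (2 * m (c a)) * C a)) →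
      (∀ a, κ a ≠ 0) →
      (∀ a, C a * Pool.Agent.Y113.MT.cq (A a) * (C a).transpose = κ a • Pool.Agent.Y113.MT.SS ℂ (2 * m (c a))) →
      ∀ K : Subfield ℂ, W2helper4.TS.Bdd D K →
      W2helper4.TS.Ind (fun a => m (c a)) K (δ + 1) (fun a => W2helper4.CY.Mv (P (c a)) (z a) * C a)) :
    ManyIndependent D δ P c z := by
  intro l C A K _ hR hfin hD
  have hpi : (2 * (Real.pi : ℂ) * Complex.I) ≠ 0 := Complex.two_pi_I_ne_zero
  choose M hM using fun a => (hR a).log
  choose κ' hκ hκA using fun a => (hR a).form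
  have hM' : ∀ a, C a * Pool.Agent.Y113.MT.cq (M a) =
      (2 * (Real.pi : ℂ) * Complex.I) • (Pool.Agent.Y113.MT.NN ℂ (2 * m (c a)) * C a) := by
    intro a
    rw [← toC_N]
    exact hM a
  have hA' : ∀ a, C a * Pool.Agent.Y113.MT.cq (A a) * (C a).transpose =
      κ' a • Pool.Agent.Y113.MT.SS ℂ (2 * m (c a)) := by
    intro a
    rw [← toC_S]
    exact hκA a
  have htw := fun a => W2helper4.CY.twist (l a) (hR a).det (hM' a) (hA' a)
  have hper : ∀ a, W2helper4.CY.Mv (P (c a)) (z a) * (Pool.Agent.Y119.HY.E (Pool.Agent.Y113.MT.NN ℂ (2 * m (c a))) (l a) * C a) =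
      fibre (P (c a)) (z a) (l a) (C a) := by
    intro a
    unfold fibre
    rw [expN_eq, val_eq, Matrix.mul_assoc]
  obtain ⟨k, e, he, hk, hQ⟩ := h _ M A _ κ' (fun a => (htw a).1) hpi (fun a => (htw a).2.1) hκ (fun a => (htw a).2.2) K
    (W2helper4.TS.bdd_of_finrank K hD)
  refine ⟨k, e, he, hk, fun Q hQd hQ0 => ?_⟩
  refine MvPolynomial.map_injective (algebraMap K ℂ) (algebraMap K ℂ).injective ?_
  rw [map_zero]
  refine hQ _ (fun μ => ?_) ?_ ?_
  · rw [MvPolynomial.coeff_map]
    exact (MvPolynomial.coeff μ Q).2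
  · refine le_trans ?_ (Nat.le_succ_of_le hQd)
    unfold MvPolynomial.totalDegree
    exact Finset.sup_mono (MvPolynomial.support_map_subset _ _)
  · rw [MvPolynomial.eval_map]
    simp only [hper]
    exact hQ0

/-- Let `V_1, …, V_r` be families of Calabi–Yau type of ranks `2 m_i ≥ 2`, given by the matrices `P_i`, with the full product of
the symplectic groups as joint monodromy group. There are `R ≥ 1` and `G0` such that the power series converge for `|z| < 1 / R`,
and for all `G ≥ G0`, `g`, `A₀`, `D` and `δ`: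
(1) For all `s` there is `E` such that for all `B` and all algebraic numbers `ξ` of degree `≤ g` and of height `≤ |ξ|^A₀` with
`(B + 2)^E ≤ |ξ|` all sums of `s` fibres at the points `1 / (ξ - G u)`, `0 ≤ u ≤ B`, with pairwise different pairs of the family and
the point, have at least `2 ∑ m_a² - 1` periods without relations of degree `≤ δ`, for all rational structures and over all number
fields of degree `≤ D`.
(2) For all `B` and for all but finitely many algebraic numbers `ξ` of degree `≤ g` and of height `≤ |ξ|^A₀`, for which the points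
`1 / (ξ - G u)`, `0 ≤ u ≤ B`, are in the disc `|z| < 1 / R`, the same holds for all sums of fibres at these points, with pairwise
different pairs of the family and the point. For `B = 0` this is about sums of fibres of different families at the
point `1 / ξ`, for example the fibre of `V_1`, or of `V_1 ⊕ ⋯ ⊕ V_r`.
(3) All but finitely many algebraic integers `ξ` of degree `≤ g` have a conjugate `ξ'` with `|ξ'| > R` such that the same holds for all sums of
fibres of different families at the point `1 / ξ'`. -/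
theorem result {r : ℕ} (m : Fin r → ℕ) (hm : ∀ i, 1 ≤ m i)
    (P : ∀ i, Matrix (Fin (2 * m i)) (Fin (2 * m i)) (PowerSeries ℚ)) (hP : ∀ i, IsVariation (P i))
    (hmax : MaximalMonodromy P) :
    ∃ R G0 : ℕ, 1 ≤ R ∧ (∀ (z : ℂ), (R : ℝ) * ‖z‖ < 1 → ∀ i a b,
      Summable fun k : ℕ => ((coeff k (P i a b) : ℚ) : ℂ) * z ^ k) ∧
    (∀ G : ℕ, G0 ≤ G → ∀ g A₀ D δ : ℕ,
      (∀ s : ℕ, ∃ E : ℕ, ∀ (B : ℕ) (ξ : ℂ), ((B : ℝ) + 2) ^ E ≤ ‖ξ‖ → Height g A₀ ξ →
        (∀ u : ℕ, u ≤ B → (R : ℝ) < ‖ξ - ((G * u : ℕ) : ℂ)‖) ∧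
        ∀ (c : Fin s → Fin r) (u : Fin s → ℕ), (∀ a, u a ≤ B) → Function.Injective (fun a => (u a, c a)) →
          ManyIndependent D δ P c (fun a => 1 / (ξ - ((G * u a : ℕ) : ℂ)))) ∧
      (∀ B : ℕ, {ξ : ℂ | (∀ u : ℕ, u ≤ B → (R : ℝ) < ‖ξ - ((G * u : ℕ) : ℂ)‖) ∧ Height g A₀ ξ ∧
        ∃ (s : ℕ) (c : Fin s → Fin r) (u : Fin s → ℕ), (∀ a, u a ≤ B) ∧ Function.Injective (fun a => (u a, c a)) ∧
          ¬ ManyIndependent D δ P c (fun a => 1 / (ξ - ((G * u a : ℕ) : ℂ)))}.Finite)) ∧
    (∀ g D δ : ℕ, {ξ : ℂ | IsIntegral ℤ ξ ∧ (minpoly ℚ ξ).natDegree ≤ g ∧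
      ∀ ξ' : ℂ, Polynomial.aeval ξ' (minpoly ℚ ξ) = 0 → (R : ℝ) < ‖ξ'‖ →
        ∃ (s : ℕ) (c : Fin s → Fin r), Function.Injective c ∧ ¬ ManyIndependent D δ P c (fun _ => 1 / ξ')}.Finite) := by
  obtain ⟨G0, hG0, b₀, hb₀, hb₁, hmt⟩ := W2helper4.TS.ind_fam5 hm (fun i => fv (hP i)) (max_eq hmax)
  have key : ∀ G : ℕ, G0 ≤ G → ∀ g A₀ D δ s : ℕ, ∃ E : ℕ, ∀ (B : ℕ) (ξ : ℂ), ((B : ℝ) + 2) ^ E ≤ ‖ξ‖ → Height g A₀ ξ →
        (∀ u : ℕ, u ≤ B → ((b₀ + 1 : ℕ) : ℝ) < ‖ξ - ((G * u : ℕ) : ℂ)‖) ∧
        ∀ (c : Fin s → Fin r) (u : Fin s → ℕ), (∀ a, u a ≤ B) → Function.Injective (fun a => (u a, c a)) →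
          ManyIndependent D δ P c (fun a => 1 / (ξ - ((G * u a : ℕ) : ℂ))) := by
    intro G hG g A₀ D δ s
    obtain ⟨E, hE⟩ := hmt G hG g A₀ D δ s
    refine ⟨E, fun B ξ hξ hht => ?_⟩
    obtain ⟨h1, h2⟩ := hE B ξ hξ hht
    have h0 : ∀ u : ℕ, u ≤ B → ((b₀ + 1 : ℕ) : ℝ) < ‖ξ - ((G * u : ℕ) : ℂ)‖ := by
      intro u hu
      have h3 := norm_sub_norm_le ξ ((G * u : ℕ) : ℂ)
      rw [Complex.norm_natCast] at h3
      have h4 : ((G * u : ℕ) : ℝ) ≤ G * B := by
        push_cast
        exact mul_le_mul_of_nonneg_left (by exact_mod_cast hu) (Nat.cast_nonneg G)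
      push_cast
      push_cast at h3 h4
      linarith
    refine ⟨h0, fun c u hub hinj => ?_⟩
    exact many_of (h2 c u hub fun a a' haa hc hu => haa (hinj (Prod.ext hu hc)))
  -- sums with a bounded number of summands
  have hcard : ∀ (B s : ℕ) (c : Fin s → Fin r) (u : Fin s → ℕ), (∀ a, u a ≤ B) → Function.Injective (fun a => (u a, c a)) →
      s ≤ (B + 1) * r := by
    intro B s c u hub hinj
    have h1 : Function.Injective (fun a => ((⟨u a, Nat.lt_succ_of_le (hub a)⟩ : Fin (B + 1)), c a)) := by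
      intro a a' h
      refine hinj ?_
      have h2 := congrArg Prod.fst h
      have h3 := congrArg Prod.snd h
      exact Prod.ext (congrArg Fin.val h2) h3
    have h2 := Fintype.card_le_of_injective _ h1
    rwa [Fintype.card_prod, Fintype.card_fin, Fintype.card_fin, Fintype.card_fin] at h2
  have keyB : ∀ G : ℕ, G0 ≤ G → ∀ g A₀ D δ B : ℕ, ∃ E : ℕ, ∀ ξ : ℂ, ((B : ℝ) + 2) ^ E ≤ ‖ξ‖ → Height g A₀ ξ →
      ∀ (s : ℕ) (c : Fin s → Fin r) (u : Fin s → ℕ), (∀ a, u a ≤ B) → Function.Injective (fun a => (u a, c a)) →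
          ManyIndependent D δ P c (fun a => 1 / (ξ - ((G * u a : ℕ) : ℂ))) := by
    intro G hG g A₀ D δ B
    choose E hE using key G hG g A₀ D δ
    refine ⟨∑ s ∈ Finset.range ((B + 1) * r + 1), E s, fun ξ hξ hht s c u hub hinj => ?_⟩
    have hs := hcard B s c u hub hinj
    have hB1 : (1 : ℝ) ≤ (B : ℝ) + 2 := by linarith [(Nat.cast_nonneg B : (0 : ℝ) ≤ B)]
    exact (hE s B ξ ((pow_le_pow_right₀ hB1 (Finset.single_le_sum (f := E) (fun _ _ => Nat.zero_le _)
      (Finset.mem_range.2 (Nat.lt_succ_of_le hs)))).trans hξ) hht).2 c u hub hinj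
  refine ⟨b₀ + 1, G0, by omega, fun z hz i a b => ?_, fun G hG g A₀ D δ => ⟨key G hG g A₀ D δ, fun B => ?_⟩, fun g D δ => ?_⟩
  · by_cases hz0 : z = 0
    · subst hz0
      refine summable_of_ne_finset_zero (s := {0}) fun k hk => ?_
      rw [Finset.mem_singleton] at hk
      rw [zero_pow hk, mul_zero]
    · have h1 := hb₀ (1 / z) (by
        rw [norm_div, norm_one, lt_div_iff₀ (norm_pos_iff.2 hz0)]
        push_cast at hz
        have := norm_nonneg z
        nlinarith) i a b
      rw [one_div_one_div] at h1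
      refine Summable.of_norm ?_
      refine h1.congr fun k => ?_
      rw [norm_mul, norm_pow]
  · obtain ⟨E, hE⟩ := keyB G hG g A₀ D δ B
    refine (Y119.HA.finite_ht g A₀ ((B + 2) ^ E) (fun ξ => ¬ ∃ (s : ℕ) (c : Fin s → Fin r) (u : Fin s → ℕ),
      (∀ a, u a ≤ B) ∧ Function.Injective (fun a => (u a, c a)) ∧
        ¬ ManyIndependent D δ P c (fun a => 1 / (ξ - ((G * u a : ℕ) : ℂ)))) (fun ξ hξ hht => ?_)).subset ?_
    · push_cast at hξ
      rintro ⟨s, c, u, hu, hinj, hsp⟩
      exact hsp (hE ξ hξ hht s c u hu hinj)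
    · rintro ξ ⟨h1, h2, h3⟩
      refine ⟨?_, h2, not_not.2 h3⟩
      have h4 := h1 0 (Nat.zero_le B)
      rw [Nat.mul_zero, Nat.cast_zero, sub_zero] at h4
      refine lt_of_le_of_lt ?_ h4
      push_cast
      have : (0 : ℝ) ≤ b₀ := Nat.cast_nonneg b₀
      linarith
  · obtain ⟨E, hE⟩ := keyB G0 le_rfl g (2 * g) D δ 0
    refine (Y119.HA.finite_conj g (2 ^ E + (b₀ + 2)) (fun ξ => (((b₀ + 1 : ℕ) : ℝ) < ‖ξ‖) ∧
      ¬ ∃ (s : ℕ) (c : Fin s → Fin r), Function.Injective c ∧ ¬ ManyIndependent D δ P c (fun _ => 1 / ξ))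
      (fun ξ hξ hht => ⟨?_, ?_⟩)).subset ?_
    · refine lt_of_lt_of_le ?_ hξ
      push_cast
      have : (0 : ℝ) < 2 ^ E := by positivity
      linarith
    · rintro ⟨s, c, hinj, hsp⟩
      apply hsp
      have h1 := hE ξ ?_ hht s c (fun _ => 0) (fun _ => le_rfl) (fun a a' h => hinj (congrArg Prod.snd h))
      · simp only [Nat.mul_zero, Nat.cast_zero, sub_zero] at h1
        exact h1
      · rw [Nat.cast_zero, zero_add]
        push_cast at hξ
        have : (0 : ℝ) ≤ b₀ := Nat.cast_nonneg b₀
        linarith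
    · rintro ξ ⟨h1, h2, h3⟩
      refine ⟨h1, h2, fun ξ' hr h1' hP' => hP'.2 (h3 ξ' hr hP'.1)⟩

end Pool.Agent.Results.MP_cbf1af_ag.CalabiYauPeriods
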