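import Pool.Agent.W2helper4.HJ.Tor
import Pool.Agent.R437.Met.Tors

/-!
# Periods of several hypergeometric families at the same point

Let `β_1, …, β_m` be rational numbers which are not integers, `n = 2 m` and `θ = z d/dz`. The hypergeometric operator
`θ^n - z ∏_j (θ - β_j) (θ + β_j)` has maximally unipotent monodromy at `z = 0` and its solutions are, up to a matrix of
constants, periods of a family of motives of rank `n` with monodromy group `Sp_n`. For `m = 1` these are
abelian varieties with real multiplication, for `m = 2` Calabi–Yau threefolds such as the mirror quintic. Let `Y_β(z)`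
be the matrix of the `(θ^a f_b)(z)`, `f_b` the Frobenius basis. It preserves an explicit alternating form `J_β`.

We consider `N` points `z_1, …, z_N`, and for every point `z_l` several families `β_(l,1), …, β_(l,k_l)`, of any ranks,
which are pairwise inequivalent: `β_(l,i')` is not `(± β_(l,i,e(j)) + a_j)_j` for a bijection `e`, signs and integers `a_j`
(if it is, the two local systems are isomorphic). Then for almost all `z`, in the sense of few hypersurfaces, and all
relations of bounded degree and height the numbers `log z_l` and the entries of all `Y_(β_(l,i))(z_l)` satisfy only the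
relations `Y_(l,i)ᵀ J_(l,i) Y_(l,i) = J_(l,i)`, as predicted by Grothendieck's period conjecture for the sum of the fibres
of all families at all points. The coefficients may be combinations of arbitrary complex numbers `ξ_a`, for example of
the powers of `2πi` and of the monomials in the entries of constant matrices `Ω_(l,i)`, so that `Y_(l,i) Ω_(l,i)` can be
considered as well.

The starting file `HypergeometricTorsors` has one family for every point (and integral `1 / z_l`).

Proof. The main step (`Pool/Agent/W2helper4/HJ`) is that the joint monodromy group of pairwise inequivalent families is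
Zariski dense in the product of the symplectic groups: the logarithm of the monodromy at `0` and the transvection at `1`
generate the Lie algebra of the product as soon as the sequences `(J v_i, A^k v_i)` of the vanishing cycles `v_i` are
not proportional; the vanishing cycle is determined by the asymptotics of the coefficients of the solutions, and by
Euler's product for the sine the generating series of this sequence is `∏_j (1 + sin²(πβ_j) / …)`, so that it determines
the numbers `sin²(πβ_j)`. The theorem then follows from the theorem of helper890 on families with torsors.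
-/

set_option autoImplicit false

open PowerSeries Matrix Filter NumberField

namespace Pool.Agent.Results.MP_cbf1af_ag.FamiliesAtTheSamePoint

open Pool.Agent

/-- the power series `k + ε` in the variable `ε` -/
noncomputable def shift (k : ℕ) : PowerSeries ℚ := C (k : ℚ) + X

/-- `a_k(ε) = ∏_{l < k} ∏_j ((l + ε)^2 - β_j^2) / (l + 1 + ε)^(2m)`. The series `∑_k a_k(ε) z^(k + ε)` solves the
equation `(θ^n - z ∏_j (θ^2 - β_j^2)) f = ε^n z^ε`, hence its coefficients `f_j` at `ε^j` with `j < n = 2m` are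
solutions of the homogeneous equation. -/
noncomputable def frob {m : ℕ} (β : Fin m → ℚ) (k : ℕ) : PowerSeries ℚ :=
  ∏ l ∈ Finset.range k, ((∏ j, (shift l ^ 2 - C (β j ^ 2))) * ((shift (l + 1))⁻¹) ^ (2 * m))

/-- The matrix with the entries `(θ^i f_j)(z)`, where `f_j(z)` is the coefficient of `ε^j` in the series
`∑_k a_k(ε) z^(k + ε)`, `z^ε = ∑_l (log z)^l ε^l / l!`. -/
noncomputable def Y {m : ℕ} (β : Fin m → ℚ) (z : ℂ) : Matrix (Fin (2 * m)) (Fin (2 * m)) ℂ :=
  Matrix.of fun i j => ∑ l ∈ Finset.range ((j : ℕ) + 1), Complex.log z ^ l / (l.factorial : ℂ) *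
    ∑' k : ℕ, ((coeff ((j : ℕ) - l) (shift k ^ (i : ℕ) * frob β k) : ℚ) : ℂ) * z ^ k

/-- the polynomial `∏_j (x^2 - β_j^2)` -/
noncomputable def poly {m : ℕ} (β : Fin m → ℚ) : Polynomial ℚ := ∏ j, (Polynomial.X ^ 2 - Polynomial.C (β j ^ 2))

/-- The matrix of the intersection form: the entry `(i, j)` is `(-1)^i q_{i+j+1-n}` for `i + j + 1 ≥ n` and `0`
otherwise, where `q_l` are the coefficients of `∏_j (x^2 - β_j^2)`. -/
noncomputable def J {m : ℕ} (β : Fin m → ℚ) : Matrix (Fin (2 * m)) (Fin (2 * m)) ℂ :=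
  Matrix.of fun i j => if 2 * m ≤ (i : ℕ) + j + 1 then (((-1) ^ (i : ℕ) * (poly β).coeff (i + j + 1 - 2 * m) : ℚ) : ℂ) else 0

/-- `β` and `β'` agree up to a permutation, signs and integers -/
def Equivalent {m m' : ℕ} (β : Fin m → ℚ) (β' : Fin m' → ℚ) : Prop :=
  ∃ e : Fin m ≃ Fin m', ∀ j, ∃ a : ℤ, β j = a + β' (e j) ∨ β j = a - β' (e j)

/-- the open unit disc without `(-1, 0]` -/
def SlitDisc : Set ℂ := {z | ‖z‖ < 1 ∧ z ∈ Complex.slitPlane}

/-- `x` is the quotient of two integers of `K` all of whose conjugates have absolute value at most `T`. -/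
def HeightLe (K : Type) [Field K] [NumberField K] (T : ℝ) (x : K) : Prop :=
  ∃ a b : 𝓞 K, b ≠ 0 ∧ (∀ φ : K →+* ℂ, ‖φ a‖ ≤ T ∧ ‖φ b‖ ≤ T) ∧ x = a / b

/-- `S` is covered by `m` hypersurfaces of degree at most `D`. -/
def Covered {X : Type} (D m : ℕ) (S : Set (X → ℂ)) : Prop :=
  ∃ Φ : Finset (MvPolynomial X ℂ), Φ.card ≤ m ∧ (∀ P ∈ Φ, P ≠ 0 ∧ P.totalDegree ≤ D) ∧
    ∀ x ∈ S, ∃ P ∈ Φ, MvPolynomial.eval x P = 0

section
variable {N : ℕ} {k : Fin N → ℕ}

/-- the variables: for every `l` one number, and for every family `i` at the `l`-th point the entries of a matrix -/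
abbrev Var (m : ∀ l, Fin (k l) → ℕ) : Type :=
  Σ l : Fin N, Option (Σ i : Fin (k l), Fin (2 * m l i) × Fin (2 * m l i))

/-- the point whose coordinates are the numbers `L l` and the entries of the matrices `X l i` -/
def point {m : ∀ l, Fin (k l) → ℕ} (L : Fin N → ℂ) (X : ∀ l i, Matrix (Fin (2 * m l i)) (Fin (2 * m l i)) ℂ) :
    Var m → ℂ
  | ⟨l, none⟩ => L l
  | ⟨l, some ⟨i, p⟩⟩ => X l i p.1 p.2

/-- the value at `v` of the polynomial of degree at most `d` in every variable with the coefficients `∑_a ξ_a c_(e,a)` -/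
noncomputable def value {m : ∀ l, Fin (k l) → ℕ} {d : ℕ} (c : (Var m → Fin (d + 1)) → Fin d → ℂ) (ξ : Fin d → ℂ)
    (v : Var m → ℂ) : ℂ := ∑ e : Var m → Fin (d + 1), (∑ a, ξ a * c e a) * ∏ y, v y ^ (e y : ℕ)

/-- All relations of degree at most `d` in every variable, whose coefficients are `∑_a ξ_a c_(e,a)` with integers `c_(e,a)`
of `K` all of whose conjugates have absolute value at most `T^d`, between the numbers `log z_l` and the entries of the
matrices `Y_(l,i)(z_l)` hold for all numbers `L_l` and all matrices `X_(l,i)` which preserve the forms `J_(l,i)`. -/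
def Generic {m : ∀ l, Fin (k l) → ℕ} (β : ∀ l i, Fin (m l i) → ℚ) (d : ℕ) (K : Type) [Field K] [NumberField K]
    (io : K →+* ℂ) (ξ : Fin d → ℂ) (T : ℝ) (z : Fin N → K) : Prop :=
  ∀ c : (Var m → Fin (d + 1)) → Fin d → 𝓞 K, (∀ e a (φ : K →+* ℂ), ‖φ (c e a : K)‖ ≤ T ^ d) →
    value (fun e a => io (c e a : K)) ξ (point (fun l => Complex.log (io (z l))) fun l i => Y (β l i) (io (z l))) = 0 →
    ∀ (L : Fin N → ℂ) (X : ∀ l i, Matrix (Fin (2 * m l i)) (Fin (2 * m l i)) ℂ),
      (∀ l i, (X l i)ᵀ * J (β l i) * X l i = J (β l i)) → value (fun e a => io (c e a : K)) ξ (point L X) = 0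

/-- the points over `K` of height at most `T` with coordinates in the slit disc and at distance at least `1 / d` from
its complement which are not generic -/
def Exceptional {m : ∀ l, Fin (k l) → ℕ} (β : ∀ l i, Fin (m l i) → ℚ) (d : ℕ) (K : Type) [Field K] [NumberField K]
    (io : K →+* ℂ) (ξ : Fin d → ℂ) (T : ℝ) : Set (Fin N → K) :=
  {z | (∀ l, HeightLe K T (z l) ∧ Metric.ball (io (z l)) (1 / d) ⊆ SlitDisc) ∧ ¬ Generic β d K io ξ T z}

end

theorem frob_eq {m : ℕ} (β : Fin m → ℚ) (k : ℕ) : frob β k = Y119.HY.aq (2 * m) (Y119.HY.QB β) k := by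
  unfold frob Y119.HY.aq
  refine Finset.prod_congr rfl fun l _ => ?_
  congr 1
  unfold Y119.HY.QB
  rw [map_prod]
  refine Finset.prod_congr rfl fun j _ => ?_
  simp only [map_sub, map_pow, Polynomial.aeval_X, Polynomial.aeval_C]
  rfl

theorem J_eq {m : ℕ} (β : Fin m → ℚ) : J β = W2helper4.HJ.JJ β := by
  ext i j
  unfold W2helper4.HJ.JJ
  rw [Y119.HY.cm_apply]
  unfold J Y119.HY.Jm
  rw [Matrix.of_apply, Matrix.of_apply]
  split_ifs
  · rfl
  · simp

theorem Y_eq {m : ℕ} (β : Fin m → ℚ) (z : ℂ) : Y β z = W2helper4.HJ.YY β z := by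
  ext i j
  unfold Y W2helper4.HJ.YY Y119.HY.Yf
  rw [Matrix.of_apply, Matrix.mul_apply]
  have hE : ∀ c : Fin (2 * m), Y119.HY.E (Y119.HY.cm (Y119.HY.Am (2 * m))) (Complex.log z) c j =
      ∑ l ∈ Finset.range (2 * m), if (j : ℕ) = c + l then Complex.log z ^ l / (l.factorial : ℂ) else 0 := by
    intro c
    unfold Y119.HY.E
    rw [Matrix.sum_apply]
    refine Finset.sum_congr rfl fun l _ => ?_
    rw [Matrix.smul_apply, ← Y119.HY.cm_pow, Y119.HY.cm_apply, Y119.HY.Am_pow, smul_eq_mul]
    split_ifs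
    · push_cast
      ring
    · simp
  simp only [hE, Finset.mul_sum]
  rw [Finset.sum_comm]
  have hsub : Finset.range ((j : ℕ) + 1) ⊆ Finset.range (2 * m) := by
    intro l hl
    rw [Finset.mem_range] at hl ⊢
    have := j.2
    omega
  refine Finset.sum_subset_zero_on_sdiff hsub (fun l hl => ?_) fun l hl => ?_
  · rw [Finset.mem_sdiff, Finset.mem_range, Finset.mem_range] at hl
    refine Finset.sum_eq_zero fun c _ => ?_
    rw [if_neg (by omega), mul_zero]
  · rw [Finset.mem_range] at hl
    have hj := j.2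
    rw [Finset.sum_eq_single (⟨(j : ℕ) - l, by omega⟩ : Fin (2 * m))]
    · rw [if_pos (by simp only; omega), mul_comm]
      congr 1
      unfold Y119.HY.Hf Y119.HY.ps
      rw [Matrix.of_apply]
      refine tsum_congr fun k => ?_
      show _ = ((Y119.HY.hq (2 * m) (Y119.HY.QB β) k i ((j : ℕ) - l) : ℚ) : ℂ) * z ^ k
      rw [frob_eq]
      rfl
    · intro c _ hc
      rw [if_neg, mul_zero]
      intro h
      apply hc
      apply Fin.ext
      simp only
      omega
    · intro h
      exact absurd (Finset.mem_univ _) h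

/-- Let `N ≥ 1`, and for every `l < N` let `β l i`, `i < k l`, be finite non-empty families of rational numbers which are
not integers, pairwise inequivalent for the same `l`. The matrices `Y (β l i) z` preserve the forms `J (β l i)` for all `z`
in the unit disc outside of `(-1, 0]`. There is a function `ω` which tends to infinity such that for all large `T`, all
number fields `K` of degree at most `ω(T)` with an embedding into `ℂ` and all complex numbers `ξ_a`, `a < ω(T)`: the
points `z` of `K ^ N` of height at most `T`, in the `N`-th power of the slit disc and at distance at least `1 / ω(T)` from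
the complement, at which some relation of degree at most `ω(T)` with the coefficients `∑_a ξ_a c_(e,a)`, `c_(e,a)` integers
of `K` of size at most `T ^ ω(T)`, between the numbers `log z_l` and the entries of all the matrices `Y (β l i) (z_l)` does
not hold for all numbers and all matrices which preserve the forms lie on at most `T ^ (1 / ω(T))` hypersurfaces of
degree at most `T ^ (1 / ω(T))`, and there are at most `T ^ (1 / ω(T)) M ^ (N - 1)` of them, where `M` is the number of
elements of `K` of height at most `T`. -/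
theorem result (N : ℕ) (hN : 0 < N) (k : Fin N → ℕ) (m : ∀ l, Fin (k l) → ℕ) (hm : ∀ l i, 1 ≤ m l i)
    (β : ∀ l i, Fin (m l i) → ℚ) (hβ : ∀ l i j, ∀ a : ℤ, β l i j ≠ a)
    (hne : ∀ l i i', i ≠ i' → ¬ Equivalent (β l i) (β l i')) :
    (∀ l i, ∀ z ∈ SlitDisc, (Y (β l i) z)ᵀ * J (β l i) * Y (β l i) z = J (β l i)) ∧
    ∃ (ω : ℝ → ℕ) (T₀ : ℝ), Tendsto ω atTop atTop ∧ Monotone ω ∧ ∀ T, T₀ ≤ T → 0 < ω T ∧
      ∀ (K : Type) [Field K] [NumberField K], Module.finrank ℚ K ≤ ω T → ∀ (io : K →+* ℂ) (ξ : Fin (ω T) → ℂ),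
        Covered ⌊T ^ ((ω T : ℝ)⁻¹)⌋₊ ⌊T ^ ((ω T : ℝ)⁻¹)⌋₊
          ((fun (z : Fin N → K) l => io (z l)) '' Exceptional β (ω T) K io ξ T) ∧
        (Exceptional β (ω T) K io ξ T).Finite ∧
        ((Exceptional β (ω T) K io ξ T).ncard : ℝ) ≤
          T ^ ((ω T : ℝ)⁻¹) * ({x : K | HeightLe K T x}.ncard : ℝ) ^ (N - 1) := by
  classical
  haveI : Nonempty (Fin N) := ⟨⟨0, hN⟩⟩
  haveI : Nonempty (Σ _ : Fin N, Unit) := ⟨⟨⟨0, hN⟩, ()⟩⟩
  refine ⟨fun l i z hz => ?_, ?_⟩
  · have h1 := W2helper4.HJ.YY_sp (hm l i) (hβ l i) (x := fun _ => z) ⟨hz.2, hz.1⟩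
    rw [Y_eq, J_eq]
    exact h1
  have hht : ∀ (K : Type) [Field K] [NumberField K] (T : ℝ) (x : K), HeightLe K T x ↔ Y120.HtLe K T x := by
    intro K _ _ T x
    exact ⟨fun h => R437.Met.Tors.htLe_of h, fun h => R437.Met.Tors.isPt_of h⟩
  have key := Y890.MV.omega_gen (X := Fin N) (fun d => Fin d → ℂ)
    (fun d K _ _ io ξ T => Exceptional β d K io ξ T) (fun d K _ _ io ξ T z hz l => (hht K T (z l)).1 (hz.1 l).1) ?_
  · obtain ⟨ω, T₀, h1, h2, h3⟩ := key
    refine ⟨ω, T₀, h1, h2, fun T hT => ⟨(h3 T hT).1, ?_⟩⟩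
    intro K _ _ hK io ξ
    obtain ⟨h4, h5, h6⟩ := (h3 T hT).2 K hK io ξ
    refine ⟨h4, h5, ?_⟩
    rw [Fintype.card_fin] at h6
    have h7 : {x : K | HeightLe K T x} = {x : K | Y120.HtLe K T x} := Set.ext fun x => hht K T x
    rw [h7]
    exact h6
  intro d ε hε
  rcases Nat.eq_zero_or_pos d with hd | hd
  · refine ⟨0, 0, 2, le_rfl, le_rfl, ?_⟩
    intro K _ _ hK
    have h1 : 0 < Module.finrank ℚ K := Module.finrank_pos
    omega
  have hT : Y890.MV.TorM (Y890.MV.USig (fun _ : Fin N => W2helper4.HJ.UU))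
      (Y890.MV.fSig (fun l => W2helper4.HJ.ff (β l))) (Y890.MV.TSig (fun l => W2helper4.HJ.TT (β l))) :=
    Y890.MV.TorM.sig fun l => W2helper4.HJ.torT (β l) (hm l) (hβ l) (hne l)
  have hUo : IsOpen (Y890.MV.USig (fun _ : Fin N => W2helper4.HJ.UU)) := Y890.MV.USig_open fun _ => W2helper4.HJ.UU_open
  have hUn : (Y890.MV.USig (fun _ : Fin N => W2helper4.HJ.UU)).Nonempty :=
    Y890.MV.USig_nonempty fun _ => W2helper4.HJ.UU_nonempty
  have hUc : IsPreconnected (Y890.MV.USig (fun _ : Fin N => W2helper4.HJ.UU)) := by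
    have h1 : Y890.MV.USig (fun _ : Fin N => W2helper4.HJ.UU) =
        (fun (x : Fin N → Unit → ℂ) (q : Σ _ : Fin N, Unit) => x q.1 q.2) ''
          (Set.univ.pi fun _ : Fin N => W2helper4.HJ.UU) := by
      ext x
      constructor
      · intro hx
        exact ⟨fun l u => x ⟨l, u⟩, fun l _ => hx l, rfl⟩
      · rintro ⟨y, hy, rfl⟩
        intro l
        exact hy l (Set.mem_univ l)
    rw [h1]
    refine (isPreconnected_univ_pi fun _ => W2helper4.HJ.UU_conn).image _ ?_
    exact (continuous_pi fun q => (continuous_apply q.2).comp (continuous_apply q.1)).continuousOn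
  have hf : ∀ q, AnalyticOnNhd ℂ (Y890.MV.fSig (fun l => W2helper4.HJ.ff (β l)) q)
      (Y890.MV.USig (fun _ : Fin N => W2helper4.HJ.UU)) :=
    Y890.MV.fSig_an fun l s => W2helper4.HJ.ff_an (β l) (hm l) (hβ l) s
  obtain ⟨D, C, T₀, hC, hT₀, H⟩ := Y890.MV.excT_cov hUc hUo hUn hf hT
    (Y890.MV.InnerM (Y890.MV.USig (fun _ : Fin N => W2helper4.HJ.UU)) d) (Y890.MV.innerM_compact _ _)
    (Y890.MV.innerM_sub _ hd) d (Fin d) d (d : ℝ) ε hε
  refine ⟨D, C, T₀, hC, hT₀, fun K _ _ hK io ξ T hT0 => ?_⟩
  obtain ⟨Φ, e1, e2, e3⟩ := H K hK io ξ T hT0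
  refine ⟨Φ.image (MvPolynomial.rename (fun q : Σ _ : Fin N, Unit => q.1)), Finset.card_image_le.trans e1, ?_, ?_⟩
  · intro P hP
    obtain ⟨Q, hQ, rfl⟩ := Finset.mem_image.1 hP
    have hinj : Function.Injective (fun q : Σ _ : Fin N, Unit => q.1) := by
      rintro ⟨a, ⟨⟩⟩ ⟨b, ⟨⟩⟩ h
      simp only at h
      rw [h]
    refine ⟨?_, (MvPolynomial.totalDegree_rename_le _ _).trans (e2 Q hQ).2⟩
    rw [Ne, (MvPolynomial.rename_injective _ hinj).eq_iff' (map_zero _)]
    exact (e2 Q hQ).1
  · rintro _ ⟨z, ⟨hz1, hz2⟩, rfl⟩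
    have hmem : (fun q : Σ _ : Fin N, Unit => z q.1) ∈ Y890.MV.ExcT d (Y890.MV.fSig (fun l => W2helper4.HJ.ff (β l)))
        (Y890.MV.TSig (fun l => W2helper4.HJ.TT (β l)))
        (Y890.MV.InnerM (Y890.MV.USig (fun _ : Fin N => W2helper4.HJ.UU)) d) K io ξ d T := by
      refine ⟨fun q => (hht K T _).1 (hz1 q.1).1, ⟨?_, ?_⟩, ?_⟩
      · rw [pi_norm_le_iff_of_nonneg (Nat.cast_nonneg d)]
        intro q
        have h1 := (hz1 q.1).2 (Metric.mem_ball_self (by positivity))
        have h2 : (1 : ℝ) ≤ d := by exact_mod_cast hd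
        exact h1.1.le.trans h2
      · intro y hy l
        rw [Metric.mem_ball, dist_pi_lt_iff (by positivity)] at hy
        have h1 : y ⟨l, ()⟩ ∈ SlitDisc := (hz1 l).2 (by
          rw [Metric.mem_ball, one_div]
          exact hy ⟨l, ()⟩)
        exact ⟨h1.2, h1.1⟩
      · unfold Generic at hz2
        push Not at hz2
        obtain ⟨c, hc, hc0, L, X, hX, hne0⟩ := hz2
        refine ⟨c, fun e a φ => by rw [Real.rpow_natCast]; exact hc e a φ, ?_, ?_⟩
        · rw [← hc0]
          unfold value
          refine Finset.sum_congr rfl fun e _ => ?_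
          congr 1
          refine Finset.prod_congr rfl fun y _ => ?_
          congr 1
          obtain ⟨l, _ | ⟨i, p⟩⟩ := y
          · rfl
          · show W2helper4.HJ.YY (β l i) (io (z l)) p.1 p.2 = Y (β l i) (io (z l)) p.1 p.2
            rw [Y_eq]
        · intro hall
          apply hne0
          refine hall (point L X) ?_
          intro l i
          have h1 := hX l i
          rw [J_eq] at h1
          exact h1
    obtain ⟨P, hP, hP0⟩ := e3 _ ⟨_, hmem, rfl⟩
    refine ⟨_, Finset.mem_image_of_mem _ hP, ?_⟩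
    rw [MvPolynomial.eval_rename]
    exact hP0

end Pool.Agent.Results.MP_cbf1af_ag.FamiliesAtTheSamePoint
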